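import Pool.Agent.H41.RestartB

set_option autoImplicit false

namespace Pool.Agent.Results.MP_a5173a_lc.LogLower

open Pool.Agent.H41.Restart

/-- c*(m) = Ω(log m) for restricted assignment with unknown running times and restarts. -/
theorem result : ∃ κ : ℝ, 0 < κ ∧
    ∀ᶠ m : ℕ in Filter.atTop, ENNReal.ofReal (κ * Real.log m) ≤ cstar m :=
  main

end Pool.Agent.Results.MP_a5173a_lc.LogLower
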